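import Mathlib
import Pool.Agent.W289.SL.Emb

set_option autoImplicit false
set_option linter.unusedSectionVars false

/-!
# Project SG: the prime of an embedding in `ℂ_p`
-/

namespace Pool.Agent.Q290.SG

open NumberField IsDedekindDomain Pool.Agent.W289.SL WithZero

section
variable {p : ℕ} [Fact p.Prime] {E : Type} [Field E] [NumberField E]

/-- the integers of norm less than one -/
noncomputable def PI (σ : E →+* ℂ_[p]) : Ideal (𝓞 E) where
  carrier := {a | ‖σ (a : E)‖ < 1}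
  add_mem' := by
    intro a b ha hb
    simp only [Set.mem_ofPred_eq] at *
    have h1 : σ (((a + b : 𝓞 E)) : E) = σ (a : E) + σ (b : E) := by
      rw [← map_add]
      rfl
    rw [h1]
    exact (IsUltrametricDist.norm_add_le_max _ _).trans_lt (max_lt ha hb)
  zero_mem' := by simp
  smul_mem' := by
    intro c a ha
    simp only [Set.mem_ofPred_eq, smul_eq_mul] at *
    have h1 : σ (((c * a : 𝓞 E)) : E) = σ (c : E) * σ (a : E) := by
      rw [← map_mul]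
      rfl
    rw [h1, norm_mul]
    exact (mul_le_of_le_one_left (norm_nonneg _) (norm_emb_le σ c)).trans_lt ha

lemma mem_PI {σ : E →+* ℂ_[p]} {a : 𝓞 E} : a ∈ PI σ ↔ ‖σ (a : E)‖ < 1 := Iff.rfl

lemma norm_of_notMem {σ : E →+* ℂ_[p]} {a : 𝓞 E} (h : a ∉ PI σ) : ‖σ (a : E)‖ = 1 :=
  le_antisymm (norm_emb_le σ a) (not_lt.1 h)

lemma notMem_PI {σ : E →+* ℂ_[p]} {a : 𝓞 E} : a ∉ PI σ ↔ ‖σ (a : E)‖ = 1 :=
  ⟨norm_of_notMem, fun h h1 => by rw [mem_PI, h] at h1; exact lt_irrefl _ h1⟩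

lemma PI_prime (σ : E →+* ℂ_[p]) : (PI σ).IsPrime := by
  refine Ideal.isPrime_iff.2 ⟨?_, ?_⟩
  · rw [Ideal.ne_top_iff_one, mem_PI]
    simp
  · intro a b hab
    by_contra h
    push Not at h
    have h1 : ‖σ ((a * b : 𝓞 E) : E)‖ = ‖σ (a : E)‖ * ‖σ (b : E)‖ := by
      rw [← norm_mul, ← map_mul]
      rfl
    rw [mem_PI, h1, norm_of_notMem h.1, norm_of_notMem h.2, one_mul] at hab
    exact lt_irrefl _ hab

lemma p_mem_PI (σ : E →+* ℂ_[p]) : (p : 𝓞 E) ∈ PI σ := by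
  rw [mem_PI]
  have h1 : σ (((p : 𝓞 E)) : E) = ((p : ℕ) : ℂ_[p]) := by
    have h2 : (((p : 𝓞 E)) : E) = (p : E) := by simp
    rw [h2, map_natCast]
  rw [h1, norm_p]
  exact inv_lt_one_of_one_lt₀ (by exact_mod_cast (Fact.out : p.Prime).one_lt)

lemma norm_emb_p (σ : E →+* ℂ_[p]) : ‖σ (p : E)‖ = (p : ℝ)⁻¹ := by rw [map_natCast, norm_p]

/-- the place of an embedding -/
noncomputable def VV (σ : E →+* ℂ_[p]) : HeightOneSpectrum (𝓞 E) where
  asIdeal := PI σ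
  isPrime := PI_prime σ
  ne_bot := by
    intro h
    have h1 : (p : 𝓞 E) ∈ PI σ := p_mem_PI σ
    rw [h, Ideal.mem_bot] at h1
    exact (Nat.cast_ne_zero.2 (Fact.out : p.Prime).ne_zero) h1

@[simp] lemma VV_asIdeal (σ : E →+* ℂ_[p]) : (VV σ).asIdeal = PI σ := rfl

lemma norm_le_one (σ : E →+* ℂ_[p]) {x : E} (h : (VV σ).valuation E x ≤ 1) : ‖σ x‖ ≤ 1 := by
  obtain ⟨n, d, hd⟩ := (VV σ).exists_primeCompl_mul_eq_of_integer x h
  have h1 : ‖σ ((d : 𝓞 E) : E)‖ = 1 := norm_of_notMem d.2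
  have h2 : ‖σ x‖ = ‖σ ((n : 𝓞 E) : E)‖ := by
    have h3 := congrArg (fun y => ‖σ y‖) hd
    simp only [map_mul, norm_mul] at h3
    have h4 : ‖σ (algebraMap (𝓞 E) E (d : 𝓞 E))‖ = 1 := h1
    rw [h4, mul_one] at h3
    exact h3
  rw [h2]
  exact norm_emb_le σ n

lemma norm_eq_one (σ : E →+* ℂ_[p]) {x : E} (h : (VV σ).valuation E x = 1) : ‖σ x‖ = 1 := by
  have h1 := norm_le_one σ h.le
  have h2 := norm_le_one σ (x := x⁻¹) (by rw [map_inv₀, h, inv_one])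
  have hx : x ≠ 0 := by
    rintro rfl
    rw [map_zero] at h
    exact zero_ne_one h
  rw [map_inv₀, norm_inv] at h2
  have h3 : 0 < ‖σ x‖ := norm_pos_iff.2 ((map_ne_zero σ).2 hx)
  have h4 : 1 ≤ ‖σ x‖ := by
    rw [inv_le_one₀ h3] at h2
    exact h2
  exact le_antisymm h1 h4

lemma norm_lt_one (σ : E →+* ℂ_[p]) {x : E} (h : (VV σ).valuation E x < 1) : ‖σ x‖ < 1 := by
  obtain ⟨n, d, hd⟩ := (VV σ).exists_primeCompl_mul_eq_of_integer x h.le
  have h1 : ‖σ (algebraMap (𝓞 E) E (d : 𝓞 E))‖ = 1 := norm_of_notMem d.2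
  have h2 : ‖σ x‖ = ‖σ (algebraMap (𝓞 E) E n)‖ := by
    have h3 := congrArg (fun y => ‖σ y‖) hd
    simp only [map_mul, norm_mul] at h3
    rw [h1, mul_one] at h3
    exact h3
  rw [h2]
  change n ∈ (VV σ).asIdeal
  rw [← HeightOneSpectrum.valuation_lt_one_iff_mem (K := E)]
  change (VV σ).valuation E (algebraMap (𝓞 E) E n) < 1
  rw [← hd, map_mul]
  exact mul_lt_one_of_lt_of_le h ((VV σ).valuation_le_one _)

lemma val_lt_one (σ : E →+* ℂ_[p]) {x : E} (h : ‖σ x‖ < 1) : (VV σ).valuation E x < 1 := by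
  by_contra h1
  rw [not_lt] at h1
  have h2 : (VV σ).valuation E x⁻¹ ≤ 1 := by
    rw [map_inv₀]
    exact inv_le_one_of_one_le₀ h1
  have h3 := norm_le_one σ h2
  have hx : x ≠ 0 := by
    rintro rfl
    rw [map_zero] at h1
    exact absurd h1 (by simp)
  rw [map_inv₀, norm_inv, inv_le_one₀ (norm_pos_iff.2 ((map_ne_zero σ).2 hx))] at h3
  exact absurd h3 (not_le.2 h)

lemma val_le_one (σ : E →+* ℂ_[p]) {x : E} (h : ‖σ x‖ ≤ 1) : (VV σ).valuation E x ≤ 1 := by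
  by_contra h1
  rw [not_le] at h1
  have hx : x ≠ 0 := by
    rintro rfl
    rw [map_zero] at h1
    exact absurd h1 (by simp)
  have h2 : (VV σ).valuation E x⁻¹ < 1 := by
    rw [map_inv₀]
    exact inv_lt_one_of_one_lt₀ h1
  have h3 := norm_lt_one σ h2
  rw [map_inv₀, norm_inv, inv_lt_one₀ (norm_pos_iff.2 ((map_ne_zero σ).2 hx))] at h3
  exact absurd h (not_le.2 h3)

/-- unramified: the square of a prime does not contain `p` -/
lemma notMem_sq (h : (Ideal.span {(p : 𝓞 E)}).IsRadical) (v : HeightOneSpectrum (𝓞 E)) :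
    (p : 𝓞 E) ∉ v.asIdeal ^ 2 := by
  intro hp
  have h1 : Ideal.span {(p : 𝓞 E)} ≤ v.asIdeal ^ 2 := (Ideal.span_singleton_le_iff_mem _).2 hp
  obtain ⟨J, hJ⟩ := Ideal.dvd_iff_le.2 h1
  have h0 : Ideal.span {(p : 𝓞 E)} ≠ ⊥ := by
    rw [Ne, Ideal.span_singleton_eq_bot]
    exact Nat.cast_ne_zero.2 (Fact.out : p.Prime).ne_zero
  have h2 : v.asIdeal * J ≤ Ideal.span {(p : 𝓞 E)} := by
    intro a ha
    refine h ⟨2, ?_⟩
    have h3 : a ^ 2 ∈ (v.asIdeal * J) ^ 2 := Ideal.pow_mem_pow ha 2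
    have h4 : (v.asIdeal * J) ^ 2 ≤ Ideal.span {(p : 𝓞 E)} := by
      rw [hJ, mul_pow, sq J, ← mul_assoc]
      exact (Ideal.mul_le_left : v.asIdeal ^ 2 * J * J ≤ v.asIdeal ^ 2 * J)
    exact h4 h3
  have h5 : v.asIdeal * J ≠ 0 := by
    intro h6
    rw [sq, mul_assoc, h6, mul_zero] at hJ
    exact h0 hJ
  obtain ⟨L, hL⟩ := Ideal.dvd_iff_le.2 h2
  rw [hJ, sq] at hL
  have h7 : v.asIdeal * J * (v.asIdeal * L) = v.asIdeal * J * 1 := by
    rw [mul_one]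
    conv_rhs => rw [hL]
    ring
  have h8 := mul_left_cancel₀ h5 h7
  have h9 : v.asIdeal = ⊤ := by
    refine top_le_iff.1 ?_
    rw [← Ideal.one_eq_top, ← h8]
    exact Ideal.mul_le_left
  exact v.isPrime.ne_top h9

lemma val_le_p (h : (Ideal.span {(p : 𝓞 E)}).IsRadical) (v : HeightOneSpectrum (𝓞 E)) {x : E}
    (hx : v.valuation E x < 1) : v.valuation E x ≤ v.valuation E (p : E) := by
  have h1 := notMem_sq h v
  rw [← HeightOneSpectrum.intValuation_le_pow_iff_mem, not_le] at h1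
  have h2 : v.valuation E (p : E) = v.intValuation (p : 𝓞 E) := by
    have h3 := v.valuation_of_algebraMap (K := E) (p : 𝓞 E)
    rw [← h3]
    simp
  rw [h2]
  by_cases h0 : v.valuation E x = 0
  · rw [h0]; exact zero_le
  have hp0 : v.intValuation (p : 𝓞 E) ≠ 0 :=
    v.intValuation_ne_zero _ (Nat.cast_ne_zero.2 (Fact.out : p.Prime).ne_zero)
  obtain ⟨k, hk⟩ : ∃ k : ℤ, v.valuation E x = exp k := ⟨log (v.valuation E x), (exp_log h0).symm⟩
  obtain ⟨l, hl⟩ : ∃ l : ℤ, v.intValuation (p : 𝓞 E) = exp l :=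
    ⟨log (v.intValuation (p : 𝓞 E)), (exp_log hp0).symm⟩
  rw [hk, hl]
  rw [hk, ← exp_zero, exp_lt_exp] at hx
  rw [hl, exp_lt_exp] at h1
  rw [exp_le_exp]
  push_cast at h1
  omega

end

end Pool.Agent.Q290.SG
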