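import Pool.Agent.Q5.SG.Stm
import Pool.Agent.Q290.SG.Pl

set_option autoImplicit false

namespace Pool.Agent.Q290.SG

open NumberField IsDedekindDomain Pool.Agent.W289.SL WithZero

section
variable {p : ℕ} [Fact p.Prime] {E : Type} [Field E] [NumberField E]

lemma dvd_absNorm (σ : E →+* ℂ_[p]) : p ∣ Ideal.absNorm (PI σ) := by
  have h1 : Ideal.span {(p : 𝓞 E)} ≤ PI σ := (Ideal.span_singleton_le_iff_mem _).2 (p_mem_PI σ)
  have h2 := Ideal.absNorm_dvd_absNorm_of_le h1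
  have h3 : Ideal.absNorm (Ideal.span {(p : 𝓞 E)}) = p ^ Module.finrank ℤ (𝓞 E) := by
    rw [Ideal.absNorm_span_singleton]
    have h4 := Algebra.norm_algebraMap (R := ℤ) (S := 𝓞 E) (p : ℤ)
    have h5 : algebraMap ℤ (𝓞 E) (p : ℤ) = (p : 𝓞 E) := by simp
    rw [h5] at h4
    rw [h4, Int.natAbs_pow, Int.natAbs_natCast]
  rw [h3] at h2
  obtain ⟨k, -, hk⟩ := (Nat.dvd_prime_pow (Fact.out : p.Prime)).1 h2
  rcases Nat.eq_zero_or_pos k with rfl | hk0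
  · rw [pow_zero, Ideal.absNorm_eq_one_iff] at hk
    exact absurd hk (PI_prime σ).ne_top
  · rw [hk]
    exact dvd_pow_self p hk0.ne'

lemma fermat (σ : E →+* ℂ_[p]) (f : ℕ) (hf : (Ideal.absNorm (PI σ) - 1) ∣ f) {a : 𝓞 E}
    (ha : a ∉ PI σ) : a ^ f - 1 ∈ PI σ := by
  obtain ⟨g, rfl⟩ := hf
  have hmax : (PI σ).IsMaximal := (VV σ).isMaximal
  let _ : Field (𝓞 E ⧸ PI σ) := Ideal.Quotient.field _
  have h0 : PI σ ≠ ⊥ := (VV σ).ne_bot
  have : Finite (𝓞 E ⧸ PI σ) := Ideal.finiteQuotientOfFreeOfNeBot _ h0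
  let _ : Fintype (𝓞 E ⧸ PI σ) := Fintype.ofFinite _
  have h1 : Ideal.absNorm (PI σ) = Fintype.card (𝓞 E ⧸ PI σ) := by
    rw [Ideal.absNorm_apply, Submodule.cardQuot_apply, Nat.card_eq_fintype_card]
  have h2 : (Ideal.Quotient.mk (PI σ) a) ≠ 0 := by
    rwa [Ne, Ideal.Quotient.eq_zero_iff_mem]
  have h3 := FiniteField.pow_card_sub_one_eq_one _ h2
  rw [← Ideal.Quotient.eq_zero_iff_mem, map_sub, map_pow, map_one, pow_mul, h1, h3, one_pow, sub_self]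

end

theorem fe : Pool.Agent.Q5.SG.S_FE := by
  classical
  intro p _ E _ _
  refine ⟨∏ σ : E →+* ℂ_[p], (Ideal.absNorm (PI σ) - 1), ?_, ?_⟩
  · apply Nat.Coprime.prod_left
    intro σ _
    have h1 : 0 < Ideal.absNorm (PI σ) := by
      rw [Nat.pos_iff_ne_zero, Ne, Ideal.absNorm_eq_zero_iff]
      exact (VV σ).ne_bot
    obtain ⟨c, hc⟩ := dvd_absNorm σ
    rw [Nat.coprime_comm, Nat.Prime.coprime_iff_not_dvd (Fact.out : p.Prime)]
    rintro ⟨d, hd⟩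
    have h2 : p ∣ 1 := by
      have h3 : Ideal.absNorm (PI σ) - (Ideal.absNorm (PI σ) - 1) = 1 := by omega
      rw [← h3]
      exact Nat.dvd_sub ⟨c, hc⟩ ⟨d, hd⟩
    exact (Fact.out : p.Prime).one_lt.ne' (Nat.dvd_one.1 h2)
  · intro σ x hx
    set f := ∏ σ : E →+* ℂ_[p], (Ideal.absNorm (PI σ) - 1) with hf
    have hdv : (Ideal.absNorm (PI σ) - 1) ∣ f := Finset.dvd_prod_of_mem _ (Finset.mem_univ σ)
    obtain ⟨n, d, hd⟩ := (VV σ).exists_primeCompl_mul_eq_of_integer x (val_le_one σ hx.le)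
    have h1 : ‖σ (algebraMap (𝓞 E) E (d : 𝓞 E))‖ = 1 := norm_of_notMem d.2
    have h2 : ‖σ (algebraMap (𝓞 E) E n)‖ = 1 := by
      rw [← hd, map_mul, norm_mul, hx, h1, one_mul]
    have h3 : n ∉ PI σ := notMem_PI.2 h2
    have h4 := fermat σ f hdv h3
    have h5 := fermat σ f hdv (a := (d : 𝓞 E)) d.2
    have h6 : n ^ f - (d : 𝓞 E) ^ f ∈ PI σ := by
      have := (PI σ).sub_mem h4 h5
      have h7 : n ^ f - (d : 𝓞 E) ^ f = n ^ f - 1 - ((d : 𝓞 E) ^ f - 1) := by ring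
      rw [h7]
      exact this
    have h8 : ‖σ (algebraMap (𝓞 E) E (n ^ f - (d : 𝓞 E) ^ f))‖ < 1 := h6
    have h9 : σ (algebraMap (𝓞 E) E (n ^ f - (d : 𝓞 E) ^ f)) =
        (σ x ^ f - 1) * σ (algebraMap (𝓞 E) E (d : 𝓞 E)) ^ f := by
      rw [map_sub, map_pow, map_pow, ← hd]
      simp only [map_sub, map_pow, map_mul]
      ring
    rw [h9, norm_mul, norm_pow, h1, one_pow, mul_one] at h8
    exact h8

end Pool.Agent.Q290.SG
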