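import Pool.Agent.Q5.SG.Stm
import Pool.Agent.Q290.SG.Pl

set_option autoImplicit false

namespace Pool.Agent.Q290.SG

open NumberField IsDedekindDomain Pool.Agent.W289.SL WithZero

theorem sm : Pool.Agent.Q5.SG.S_SM := by
  intro p _ E _ _ hun σ x hx
  have h1 := val_lt_one σ hx
  have h2 := val_le_p hun (VV σ) h1
  have hp0 : (p : E) ≠ 0 := Nat.cast_ne_zero.2 (Fact.out : p.Prime).ne_zero
  have h3 : (VV σ).valuation E (x / (p : E)) ≤ 1 := by
    rw [map_div₀]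
    exact div_le_one_of_le₀ h2 zero_le
  have h4 := norm_le_one σ h3
  rw [map_div₀, norm_div, norm_emb_p, div_le_one (by
    have := (Fact.out : p.Prime).pos
    positivity)] at h4
  exact h4

theorem vl : Pool.Agent.Q5.SG.S_VL := by
  intro p _ E _ _ σ x h
  exact norm_le_one σ (h (VV σ) (p_mem_PI σ))

section
variable {p : ℕ} [Fact p.Prime] {E : Type} [Field E] [NumberField E]

lemma exists_exp {v : HeightOneSpectrum (𝓞 E)} {x : E} (hx : x ≠ 0) :
    ∃ k : ℤ, v.valuation E x = exp k :=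
  ⟨log (v.valuation E x), (exp_log ((v.valuation E).ne_zero_iff.2 hx)).symm⟩

theorem ab_aux (σ τ : E →+* ℂ_[p]) (h : VV τ = VV σ) (x : E) : ‖τ x‖ = ‖σ x‖ := by
  obtain ⟨π, hπ⟩ := (VV σ).valuation_exists_uniformizer E
  have hπ0 : π ≠ 0 := by
    rintro rfl
    rw [map_zero] at hπ
    exact exp_ne_zero hπ.symm
  have hp0 : (p : E) ≠ 0 := Nat.cast_ne_zero.2 (Fact.out : p.Prime).ne_zero
  have hv : ∀ y : E, y ≠ 0 → ∃ k : ℤ, ‖σ y‖ = ‖σ π‖ ^ k ∧ ‖τ y‖ = ‖τ π‖ ^ k ∧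
      (VV σ).valuation E y = exp (-k) := by
    intro y hy
    obtain ⟨k, hk⟩ := exists_exp (v := VV σ) hy
    have h1 : (VV σ).valuation E (y / π ^ (-k)) = 1 := by
      rw [map_div₀, map_zpow₀, hπ, hk, ← exp_zsmul]
      simp
    have h2 := norm_eq_one σ h1
    have h3 := norm_eq_one τ (x := y / π ^ (-k)) (by rw [h]; exact h1)
    have hσ : ‖σ π‖ ≠ 0 := norm_ne_zero_iff.2 ((map_ne_zero σ).2 hπ0)
    have hτ : ‖τ π‖ ≠ 0 := norm_ne_zero_iff.2 ((map_ne_zero τ).2 hπ0)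
    rw [map_div₀, norm_div, map_zpow₀, norm_zpow, div_eq_one_iff_eq (zpow_ne_zero _ hσ)] at h2
    rw [map_div₀, norm_div, map_zpow₀, norm_zpow, div_eq_one_iff_eq (zpow_ne_zero _ hτ)] at h3
    exact ⟨-k, h2, h3, by rw [neg_neg]; exact hk⟩
  obtain ⟨e, h1, h2, h3⟩ := hv p hp0
  have he : 0 < e := by
    have h4 : (VV σ).valuation E (p : E) < 1 := by
      apply val_lt_one
      rw [norm_emb_p]
      exact inv_lt_one_of_one_lt₀ (by exact_mod_cast (Fact.out : p.Prime).one_lt)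
    rw [h3, ← exp_zero, exp_lt_exp] at h4
    omega
  rw [norm_emb_p] at h1 h2
  have h4 : ‖σ π‖ = ‖τ π‖ := by
    lift e to ℕ using he.le
    rw [zpow_natCast] at h1 h2
    exact (pow_left_inj₀ (norm_nonneg _) (norm_nonneg _) (by omega)).1 (h1.symm.trans h2)
  by_cases hx : x = 0
  · subst hx
    simp
  · obtain ⟨k, h5, h6, -⟩ := hv x hx
    rw [h5, h6, h4]

end

theorem ab : Pool.Agent.Q5.SG.S_AB := by
  intro p _ E _ _ σ τ h x
  refine ab_aux σ τ ?_ x
  have h1 : PI σ ≤ PI τ := fun a ha => h a ha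
  have h2 : (VV σ).asIdeal.IsMaximal := (VV σ).isMaximal
  apply HeightOneSpectrum.ext
  exact (h2.eq_of_le (VV τ).isPrime.ne_top h1).symm

end Pool.Agent.Q290.SG
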